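import Pool.Agent.Run7.h568.DG.CIface

/-!
# Closed surfaces: ordered products of strand powers (`C_H` from `C_str`)
-/

open Real Matrix

noncomputable section

namespace Run7.h708.DG

open Run7.h568.DG

/-- Reversal of an ordered product in a group. -/
theorem prod_rev {G : Type*} [Group G] (g : G) : ∀ (n : ℕ) (X Y : ℕ → G),
    (∀ k < n, X k = g * (Y (n - 1 - k))⁻¹ * g⁻¹) →
    ((List.range n).map X).prod = g * (((List.range n).map Y).prod)⁻¹ * g⁻¹ := by
  intro n
  induction n with
  | zero => intro X Y _; simp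
  | succ n ih =>
    intro X Y h
    have h0 : X 0 = g * (Y n)⁻¹ * g⁻¹ := by
      have := h 0 (Nat.succ_pos n)
      simpa using this
    have h1 : ((List.range n).map (fun k => X (k + 1))).prod =
        g * (((List.range n).map Y).prod)⁻¹ * g⁻¹ := by
      apply ih
      intro k hk
      have := h (k + 1) (by omega)
      rw [this]
      have e : n + 1 - 1 - (k + 1) = n - 1 - k := by omega
      rw [e]
    have h2 : ((List.range (n + 1)).map X).prod =
        X 0 * ((List.range n).map (fun k => X (k + 1))).prod := by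
      rw [List.range_succ_eq_map, List.map_cons, List.prod_cons, List.map_map]
      rfl
    have h3 : ((List.range (n + 1)).map Y).prod = ((List.range n).map Y).prod * Y n := by
      rw [List.range_succ, List.map_append, List.prod_append]
      simp
    rw [h2, h3, h0, h1]
    group

/-- Splitting an ordered product. -/
theorem prod_split {G : Type*} [Group G] (X : ℕ → G) (a b : ℕ) :
    ((List.range (a + b)).map X).prod =
      ((List.range a).map X).prod * ((List.range b).map (fun k => X (a + k))).prod := by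
  rw [List.range_add, List.map_append, List.prod_append, List.map_map]
  rfl

theorem E_inv (s : ℝ) : (E s)⁻¹ = - E s := by
  apply Subtype.ext
  rw [Matrix.SpecialLinearGroup.coe_inv, Matrix.SpecialLinearGroup.coe_neg,
    Matrix.adjugate_fin_two]
  ext i j
  fin_cases i <;> fin_cases j <;> simp [E]

/-- Conjugates of powers. -/
theorem conj_zpow_inv {G : Type*} [Group G] (g x : G) (m : ℤ) :
    (g * x⁻¹ * g⁻¹) ^ m = g * (x ^ m)⁻¹ * g⁻¹ := by
  rw [conj_zpow, _root_.inv_zpow]

variable {D : Type} [Fintype D] [DecidableEq D]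

theorem t_CH (hstr : C_str) : C_H := by
  intro D _ _ T P t p hp
  have hS := hstr T P t p hp
  have hM := t.hc
  -- distinctness
  have huv : P.u ≠ P.v := by simpa using P.huv 0
  have hvu : P.v ≠ P.u := fun h => huv h.symm
  have hv1 : P.v ≠ T.io P.u := P.hne
  have hu1 : P.u ≠ T.io P.v := by
    intro h
    apply P.hne
    rw [h, T.io_io]
  have huu : P.u ≠ T.io P.u := fun h => T.io_ne P.u h.symm
  have hiviu : T.io P.v ≠ T.io P.u := fun h => hvu (T.io.injective h)
  have hivv : T.io P.v ≠ P.v := T.io_ne P.v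
  have hsplit : ∀ d a b, t.Pd p d (a + b) = t.Pd p d a *
      ((List.range b).map (fun k => t.str p (d, a + k) ^ t.m (d, a + k))).prod := by
    intro d a b
    exact prod_split _ a b
  refine ⟨?_, ?_, ?_, ?_⟩
  · intro d
    unfold PTD.H
    have hn : T.num t.c d = t.c d + t.c (T.sg d) := rfl
    rw [hn, hsplit]
    congr 1
    unfold PTD.Pd
    apply prod_rev
    intro k hk
    have hlt : t.c d + k < T.num t.c d := by rw [hn]; omega
    obtain ⟨-, -, h3⟩ := hS d (t.c d + k) hlt
    obtain ⟨h4, h5⟩ := h3 (by omega)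
    have e : T.num t.c d - 1 - (t.c d + k) = t.c (T.sg d) - 1 - k := by rw [hn]; omega
    rw [e] at h4 h5
    rw [h4, h5, conj_zpow_inv]
  · intro d hd
    have h1 : d ≠ T.io P.u := fun h => hd (Or.inr (Or.inl h))
    have h2 : d ≠ P.v := fun h => hd (Or.inr (Or.inr (Or.inl h)))
    have h3 : d ≠ T.io P.v := fun h => hd (Or.inr (Or.inr (Or.inr h)))
    have hn : T.num t.c (T.io d) = T.num t.c d := hM.1 d hd
    have key : t.H p (T.io d) = (E (p.1 d))⁻¹ * (t.H p d)⁻¹ * ((E (p.1 d))⁻¹)⁻¹ := by
      unfold PTD.H PTD.Pd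
      rw [hn]
      apply prod_rev
      intro k hk
      have hlt : T.num t.c d - 1 - k < T.num t.c d := by omega
      obtain ⟨-, h4, -⟩ := hS d (T.num t.c d - 1 - k) hlt
      have h5 := t.m_rev d (T.num t.c d - 1 - k) hlt
      have hc : P.cross t.c t.a (d, T.num t.c d - 1 - k) = (T.io d, k) := by
        unfold Portal.cross
        rw [if_neg h1, if_neg h2, if_neg h3]
        congr 1
        simp only
        omega
      have hx : P.xm p t.c t.a (d, T.num t.c d - 1 - k) = E (p.1 d) := by
        unfold Portal.xm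
        rw [if_neg (fun h => h1 h.1), if_neg (fun h => h2 h.1)]
      rw [hc] at h4 h5
      rw [hx] at h4
      rw [h4, h5]
      conv_lhs => rw [show E (p.1 d) = ((E (p.1 d))⁻¹)⁻¹ from (inv_inv _).symm]
      rw [inv_inv, ← conj_zpow_inv, inv_inv]
    rw [key, inv_inv]
  · have hn : T.num t.c (T.io P.u) = T.num t.c P.u + t.a := hM.2.1
    unfold PTD.H
    rw [hn, hsplit]
    congr 1
    · have key : t.Pd p (T.io P.u) (T.num t.c P.u) =
          (E (p.1 P.u))⁻¹ * (t.Pd p P.u (T.num t.c P.u))⁻¹ * ((E (p.1 P.u))⁻¹)⁻¹ := by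
        unfold PTD.Pd
        apply prod_rev
        intro k hk
        have hlt : T.num t.c P.u - 1 - k < T.num t.c P.u := by omega
        obtain ⟨-, h4, -⟩ := hS P.u (T.num t.c P.u - 1 - k) hlt
        have h5 := t.m_rev P.u (T.num t.c P.u - 1 - k) hlt
        have hc : P.cross t.c t.a (P.u, T.num t.c P.u - 1 - k) = (T.io P.u, k) := by
          unfold Portal.cross
          rw [if_neg huu, if_neg huv, if_neg hu1]
          congr 1
          simp only
          omega
        have hx : P.xm p t.c t.a (P.u, T.num t.c P.u - 1 - k) = E (p.1 P.u) := by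
          unfold Portal.xm
          rw [if_neg (fun h => huu h.1), if_neg (fun h => huv h.1)]
        rw [hc] at h4 h5
        rw [hx] at h4
        rw [h4, h5, ← conj_zpow_inv, inv_inv]
      rw [key, inv_inv]
    · have key : ((List.range t.a).map (fun k => t.str p (T.io P.u, T.num t.c P.u + k) ^
            t.m (T.io P.u, T.num t.c P.u + k))).prod =
          ((P.J p)⁻¹ * E (p.1 P.u))⁻¹ * (t.B p)⁻¹ * (((P.J p)⁻¹ * E (p.1 P.u))⁻¹)⁻¹ := by
        unfold PTD.B PTD.Pd
        apply prod_rev
        intro k hk
        have hna : T.num t.c P.v = T.num t.c (T.io P.v) + t.a := hM.2.2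
        have hlt : t.a - 1 - k < T.num t.c P.v := by omega
        obtain ⟨-, h4, -⟩ := hS P.v (t.a - 1 - k) hlt
        have h5 := t.m_rev P.v (t.a - 1 - k) hlt
        have hc : P.cross t.c t.a (P.v, t.a - 1 - k) = (T.io P.u, T.num t.c P.u + k) := by
          unfold Portal.cross
          rw [if_neg hv1, if_pos rfl, if_pos (by simp only; omega)]
          congr 1
          simp only
          omega
        have hx : P.xm p t.c t.a (P.v, t.a - 1 - k) = (P.J p)⁻¹ * E (p.1 P.u) := by
          unfold Portal.xm
          rw [if_neg (fun h => hv1 h.1), if_pos ⟨rfl, by simp only; omega⟩]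
        rw [hc] at h4 h5
        rw [hx] at h4
        rw [h4, h5, ← conj_zpow_inv, inv_inv]
      rw [key, inv_inv]
  · have hn : T.num t.c P.v = t.a + T.num t.c (T.io P.v) := by
      have := hM.2.2
      omega
    have key : ((List.range (T.num t.c (T.io P.v))).map (fun k => t.str p (P.v, t.a + k) ^
            t.m (P.v, t.a + k))).prod =
          E (p.1 P.v) * (t.H p (T.io P.v))⁻¹ * (E (p.1 P.v))⁻¹ := by
      unfold PTD.H PTD.Pd
      apply prod_rev
      intro k hk
      have hlt : T.num t.c (T.io P.v) - 1 - k < T.num t.c (T.io P.v) := by omega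
      obtain ⟨-, h4, -⟩ := hS (T.io P.v) (T.num t.c (T.io P.v) - 1 - k) hlt
      have h5 := t.m_rev (T.io P.v) (T.num t.c (T.io P.v) - 1 - k) hlt
      have hc : P.cross t.c t.a (T.io P.v, T.num t.c (T.io P.v) - 1 - k) = (P.v, t.a + k) := by
        unfold Portal.cross
        rw [if_neg hiviu, if_neg hivv, if_pos rfl]
        congr 1
        simp only
        omega
      have hx : P.xm p t.c t.a (T.io P.v, T.num t.c (T.io P.v) - 1 - k) = E (p.1 P.v) := by
        unfold Portal.xm
        rw [if_neg (fun h => hiviu h.1), if_neg (fun h => hivv h.1)]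
        simp only [hp]
      rw [hc] at h4 h5
      rw [hx] at h4
      have h6 : (E (p.1 P.v))⁻¹ * (t.str p (T.io P.v, T.num t.c (T.io P.v) - 1 - k))⁻¹ *
          E (p.1 P.v) = E (p.1 P.v) *
          (t.str p (T.io P.v, T.num t.c (T.io P.v) - 1 - k))⁻¹ * (E (p.1 P.v))⁻¹ := by
        rw [E_inv]
        simp
      rw [h4, h5, h6, conj_zpow_inv]
    unfold PTD.H at key ⊢
    rw [hn, hsplit, key]
    rfl

end Run7.h708.DG
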